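import Mathlib
import Pool.Agent.W164.MO.Defs

/-!
# Completely multiplicative weights and the special part of an integer (project MO)
-/

set_option autoImplicit false

open Finset
open Pool.Agent.W164.MO
open Pool.Agent.H932R4.CMO (bw)

namespace Pool.Agent.W571.MO

lemma cm_one (w : ℕ → ℝ) : cm w 1 = 1 := by simp [cm]

lemma cm_mul (w : ℕ → ℝ) {a b : ℕ} (ha : a ≠ 0) (hb : b ≠ 0) :
    cm w (a * b) = cm w a * cm w b := by
  unfold cm
  rw [((Nat.perm_primeFactorsList_mul ha hb).map w).prod_eq, List.map_append, List.prod_append]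

lemma cm_nonneg {w : ℕ → ℝ} (hw : ∀ p, 0 ≤ w p) (n : ℕ) : 0 ≤ cm w n := by
  unfold cm
  refine List.prod_nonneg fun a ha => ?_
  obtain ⟨p, _, rfl⟩ := List.mem_map.1 ha
  exact hw p

lemma cm_prime (w : ℕ → ℝ) {p : ℕ} (hp : p.Prime) : cm w p = w p := by
  simp [cm, Nat.primeFactorsList_prime hp]

lemma cm_congr {w w' : ℕ → ℝ} {n : ℕ} (h : ∀ p : ℕ, p.Prime → p ∣ n → w p = w' p) :
    cm w n = cm w' n := by
  unfold cm
  congr 1
  refine List.map_congr_left fun p hp => ?_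
  exact h p (Nat.prime_of_mem_primeFactorsList hp) (Nat.dvd_of_mem_primeFactorsList hp)

lemma cm_le_one {w : ℕ → ℝ} {n : ℕ} (h0 : ∀ p, 0 ≤ w p)
    (h : ∀ p : ℕ, p.Prime → p ∣ n → w p ≤ 1) : cm w n ≤ 1 := by
  unfold cm
  have key : ∀ l : List ℕ, (∀ p ∈ l, w p ≤ 1) → (l.map w).prod ≤ 1 := by
    intro l
    induction l with
    | nil => simp
    | cons a l ih =>
      intro hl
      rw [List.map_cons, List.prod_cons]
      have h1 := hl a (by simp)
      have h2 := ih fun p hp => hl p (by simp [hp])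
      have h3 : 0 ≤ (l.map w).prod := List.prod_nonneg fun b hb => by
        obtain ⟨p, _, rfl⟩ := List.mem_map.1 hb
        exact h0 p
      exact mul_le_one₀ h1 h3 h2
  exact key _ fun p hp =>
    h p (Nat.prime_of_mem_primeFactorsList hp) (Nat.dvd_of_mem_primeFactorsList hp)

open Classical in
/-- the weight `p ^ e` at the primes in `S`, zero at the others -/
noncomputable def wS (S : Set ℕ) (e : ℝ) (p : ℕ) : ℝ := if p ∈ S then (p : ℝ) ^ e else 0

lemma wS_nonneg (S : Set ℕ) (e : ℝ) (p : ℕ) : 0 ≤ wS S e p := by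
  unfold wS
  split_ifs
  · positivity
  · exact le_rfl

lemma cm_rpow (e : ℝ) {n : ℕ} (hn : n ≠ 0) : cm (fun p => (p : ℝ) ^ e) n = (n : ℝ) ^ e := by
  unfold cm
  rw [Real.list_prod_map_rpow' n.primeFactorsList (fun p : ℕ => (p : ℝ)) (fun p _ => by positivity) e]
  congr 1
  have h := Nat.prod_primeFactorsList hn
  conv_rhs => rw [← h]
  rw [Nat.cast_list_prod]

lemma cm_wS {S : Set ℕ} (e : ℝ) {n : ℕ} (hn : n ≠ 0) (h : ∀ p : ℕ, p.Prime → p ∣ n → p ∈ S) :
    cm (wS S e) n = (n : ℝ) ^ e := by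
  rw [← cm_rpow e hn]
  refine cm_congr fun p hp hpn => ?_
  unfold wS
  rw [if_pos (h p hp hpn)]

lemma cm_wt_sp {S : Set ℕ} (P₀ : ℕ) (e : ℝ) {n : ℕ} (hn : n ≠ 0)
    (h : ∀ p : ℕ, p.Prime → p ∣ n → p ∈ S) : cm (wt P₀ e S) n = (n : ℝ) ^ e := by
  rw [← cm_rpow e hn]
  refine cm_congr fun p hp hpn => ?_
  unfold wt
  rw [if_pos (h p hp hpn)]

lemma wt_nonneg (P₀ : ℕ) (e : ℝ) (S : Set ℕ) (p : ℕ) : 0 ≤ wt P₀ e S p := by
  unfold wt
  split_ifs
  · positivity
  · positivity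
  · exact le_rfl

lemma cm_wt_rt {S : Set ℕ} (P₀ : ℕ) (e : ℝ) {n : ℕ} (hn : n ≠ 0)
    (h : ∀ p : ℕ, p.Prime → p ∣ n → p ∉ S) : cm (wt P₀ e S) n = bw P₀ n := by
  unfold bw
  by_cases hP : ∀ p ∈ n.primeFactors, P₀ ≤ p
  · rw [if_pos ⟨hn, hP⟩]
    have h1 : cm (wt P₀ e S) n = cm (fun p => 1 / (Real.log p) ^ 2) n := by
      refine cm_congr fun p hp hpn => ?_
      unfold wt
      rw [if_neg (h p hp hpn), if_pos (hP p (Nat.mem_primeFactors.2 ⟨hp, hpn, hn⟩))]
    rw [h1]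
    unfold cm
    rw [Finset.prod_list_map_count]
    unfold Finsupp.prod
    rw [Nat.support_factorization]
    refine Finset.prod_congr rfl fun p _ => ?_
    rw [Nat.primeFactorsList_count_eq]
  · rw [if_neg (fun hh => hP hh.2)]
    push Not at hP
    obtain ⟨p, hp, hpP⟩ := hP
    unfold cm
    refine List.prod_eq_zero ?_
    refine List.mem_map.2 ⟨p, Nat.mem_primeFactors_iff_mem_primeFactorsList.1 hp, ?_⟩
    have hp' := Nat.mem_primeFactors.1 hp
    unfold wt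
    rw [if_neg (h p hp'.1 hp'.2.1), if_neg (by omega)]

open Classical in
/-- the part of `n` composed of primes in `S` -/
noncomputable def sp (S : Set ℕ) (n : ℕ) : ℕ :=
  (n.primeFactorsList.filter (fun p => decide (p ∈ S))).prod

open Classical in
/-- the part of `n` composed of primes not in `S` -/
noncomputable def rt (S : Set ℕ) (n : ℕ) : ℕ :=
  (n.primeFactorsList.filter (fun p => !decide (p ∈ S))).prod

lemma sp_mul_rt (S : Set ℕ) {n : ℕ} (hn : n ≠ 0) : sp S n * rt S n = n := by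
  classical
  unfold sp rt
  rw [← List.prod_append, (List.filter_append_perm _ _).prod_eq, Nat.prod_primeFactorsList hn]

lemma sp_dvd (S : Set ℕ) {n : ℕ} (hn : n ≠ 0) : sp S n ∣ n := ⟨_, (sp_mul_rt S hn).symm⟩

lemma rt_dvd (S : Set ℕ) {n : ℕ} (hn : n ≠ 0) : rt S n ∣ n :=
  ⟨sp S n, by rw [mul_comm]; exact (sp_mul_rt S hn).symm⟩

lemma sp_ne (S : Set ℕ) {n : ℕ} (hn : n ≠ 0) : sp S n ≠ 0 := fun h => hn (by
  rw [← sp_mul_rt S hn, h, zero_mul])

lemma rt_ne (S : Set ℕ) {n : ℕ} (hn : n ≠ 0) : rt S n ≠ 0 := fun h => hn (by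
  rw [← sp_mul_rt S hn, h, mul_zero])

lemma sp_fac (S : Set ℕ) (n : ℕ) : ∀ p : ℕ, p.Prime → p ∣ sp S n → p ∈ S := by
  classical
  intro p hp hd
  unfold sp at hd
  obtain ⟨a, ha, hpa⟩ := (hp.prime.dvd_prod_iff).1 hd
  rw [List.mem_filter] at ha
  have ha1 := Nat.prime_of_mem_primeFactorsList ha.1
  have : p = a := (Nat.prime_dvd_prime_iff_eq hp ha1).1 hpa
  rw [this]
  simpa using ha.2

lemma rt_fac (S : Set ℕ) (n : ℕ) : ∀ p : ℕ, p.Prime → p ∣ rt S n → p ∉ S := by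
  classical
  intro p hp hd
  unfold rt at hd
  obtain ⟨a, ha, hpa⟩ := (hp.prime.dvd_prod_iff).1 hd
  rw [List.mem_filter] at ha
  have ha1 := Nat.prime_of_mem_primeFactorsList ha.1
  have : p = a := (Nat.prime_dvd_prime_iff_eq hp ha1).1 hpa
  rw [this]
  simpa using ha.2

/-- a prime of `S` dividing `n` divides the special part -/
lemma dvd_sp {S : Set ℕ} {n p : ℕ} (hn : n ≠ 0) (hp : p.Prime) (hpn : p ∣ n) (hpS : p ∈ S) :
    p ∣ sp S n := by
  rw [← sp_mul_rt S hn] at hpn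
  rcases (hp.dvd_mul).1 hpn with h | h
  · exact h
  · exact absurd hpS (rt_fac S n p hp h)

/-- decomposition of the weight -/
lemma cm_wt_eq (S : Set ℕ) (P₀ : ℕ) (e : ℝ) {n : ℕ} (hn : n ≠ 0) :
    cm (wt P₀ e S) n = (sp S n : ℝ) ^ e * bw P₀ (rt S n) := by
  conv_lhs => rw [← sp_mul_rt S hn]
  rw [cm_mul _ (sp_ne S hn) (rt_ne S hn), cm_wt_sp P₀ e (sp_ne S hn) (sp_fac S n),
    cm_wt_rt P₀ e (rt_ne S hn) (rt_fac S n)]

lemma bw_nonneg (P₀ n : ℕ) : 0 ≤ bw P₀ n := by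
  unfold bw
  split_ifs
  · unfold Finsupp.prod
    exact Finset.prod_nonneg fun p _ => by positivity
  · exact le_rfl

lemma bw_le_one {P₀ : ℕ} (hP : 3 ≤ P₀) (n : ℕ) : bw P₀ n ≤ 1 := by
  unfold bw
  split_ifs with h
  · unfold Finsupp.prod
    refine Finset.prod_le_one (fun p _ => by positivity) fun p hp => ?_
    rw [Nat.support_factorization] at hp
    have h1 : P₀ ≤ p := h.2 p hp
    have h2 : (3 : ℝ) ≤ p := by exact_mod_cast hP.trans h1
    have h3 : 1 ≤ Real.log p := by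
      rw [Real.le_log_iff_exp_le (by linarith)]
      exact Real.exp_one_lt_d9.le.trans (by linarith)
    refine pow_le_one₀ (by positivity) ?_
    rw [div_le_one (by positivity)]
    nlinarith
  · exact zero_le_one

/-- the trivial bound -/
lemma cm_wt_le (S : Set ℕ) {P₀ : ℕ} (hP : 3 ≤ P₀) {e : ℝ} (he : 0 ≤ e) {n : ℕ} (hn : n ≠ 0) :
    cm (wt P₀ e S) n ≤ (n : ℝ) ^ e := by
  rw [cm_wt_eq S P₀ e hn]
  have h1 : (sp S n : ℝ) ^ e ≤ (n : ℝ) ^ e := by
    refine Real.rpow_le_rpow (by positivity) ?_ he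
    exact_mod_cast Nat.le_of_dvd (Nat.pos_of_ne_zero hn) (sp_dvd S hn)
  calc (sp S n : ℝ) ^ e * bw P₀ (rt S n) ≤ (n : ℝ) ^ e * 1 :=
        mul_le_mul h1 (bw_le_one hP _) (bw_nonneg _ _) (by positivity)
    _ = (n : ℝ) ^ e := mul_one _

/-! ### blocks -/

lemma blk_range {k l j n : ℕ} (hl : l ≤ k) (hj : j ∈ idx k l) (hn : n ∈ blk l j) :
    2 ^ k ≤ n ∧ n < 2 ^ (k + 1) := by
  unfold idx at hj
  unfold blk at hn
  rw [mem_Ico] at hj hn
  have e1 : 2 ^ k = 2 ^ (k - l) * 2 ^ l := by rw [← pow_add]; congr 1; omega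
  have e2 : 2 ^ (k + 1) = 2 ^ (k - l + 1) * 2 ^ l := by rw [← pow_add]; congr 1; omega
  constructor
  · rw [e1]
    exact (Nat.mul_le_mul_right _ hj.1).trans hn.1
  · rw [e2]
    exact hn.2.trans_le (Nat.mul_le_mul_right _ hj.2)

lemma ll_le {ν : ℝ} (h0 : 0 < ν) (k₁ k : ℕ) : 3 * ll ν k₁ k ≤ 2 * k := by
  unfold ll
  split_ifs
  · omega
  · have h1 : (⌊(1 / 2 - ν / 1000) * (k : ℝ)⌋₊ : ℝ) ≤ k / 2 := by
      by_cases h2 : 0 ≤ (1 / 2 - ν / 1000) * (k : ℝ)
      · refine (Nat.floor_le h2).trans ?_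
        have : 0 ≤ (k : ℝ) := Nat.cast_nonneg k
        nlinarith
      · rw [Nat.floor_of_nonpos (by linarith)]
        simp
        positivity
    have h2 : ((2 * ⌊(1 / 2 - ν / 1000) * (k : ℝ)⌋₊ : ℕ) : ℝ) ≤ (k : ℕ) := by
      push_cast
      linarith
    have h3 : 2 * ⌊(1 / 2 - ν / 1000) * (k : ℝ)⌋₊ ≤ k := by exact_mod_cast h2
    omega

lemma ll_ge {ν : ℝ} (h0 : 0 < ν) (h1 : ν ≤ 1) (k₁ k : ℕ) : 49 * k ≤ 100 * (ll ν k₁ k + 1) := by
  unfold ll
  split_ifs
  · omega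
  · have h2 := Nat.lt_floor_add_one ((1 / 2 - ν / 1000) * (k : ℝ))
    have h3 : ((49 * k : ℕ) : ℝ) ≤ ((100 * (⌊(1 / 2 - ν / 1000) * (k : ℝ)⌋₊ + 1) : ℕ) : ℝ) := by
      push_cast
      have : 0 ≤ (k : ℝ) := Nat.cast_nonneg k
      nlinarith
    exact_mod_cast h3

/-- the number of multiples of `s` in an interval of length `L` -/
lemma card_mult (A L s : ℕ) (hs : 1 ≤ s) :
    ((Ico A (A + L)).filter (fun n => s ∣ n)).card ≤ L / s + 1 := by
  have h : ∀ n ∈ (Ico A (A + L)).filter (fun n => s ∣ n),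
      n / s ∈ Ico ((A + s - 1) / s) ((A + s - 1) / s + (L / s + 1)) := by
    intro n hn
    rw [mem_filter, mem_Ico] at hn
    obtain ⟨⟨h1, h2⟩, m, rfl⟩ := hn
    rw [Nat.mul_div_cancel_left m hs, mem_Ico]
    constructor
    · rw [← Nat.lt_succ_iff, Nat.div_lt_iff_lt_mul (by omega)]
      have : s * m + s = (m + 1) * s := by ring
      have h3 : m.succ * s = s * m + s := by rw [Nat.succ_eq_add_one]; ring
      rw [h3]
      omega
    · by_contra hc
      push Not at hc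
      have h3 : s * ((A + s - 1) / s) + s ≥ A + s - 1 + 1 := by
        have := Nat.div_add_mod (A + s - 1) s
        have h4 := Nat.mod_lt (A + s - 1) (show 0 < s by omega)
        omega
      have h5 : s * (L / s) + s > L := by
        have := Nat.div_add_mod L s
        have h4 := Nat.mod_lt L (show 0 < s by omega)
        omega
      have h6 : s * ((A + s - 1) / s + (L / s + 1)) ≤ s * m := Nat.mul_le_mul_left s hc
      have h7 : s * ((A + s - 1) / s + (L / s + 1)) =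
          s * ((A + s - 1) / s) + (s * (L / s) + s) := by ring
      omega
  have hinj : Set.InjOn (fun n => n / s) ((Ico A (A + L)).filter (fun n => s ∣ n) : Set ℕ) := by
    intro a ha b hb hab
    simp only [coe_filter, Set.mem_setOf_eq] at ha hb
    obtain ⟨_, u, rfl⟩ := ha
    obtain ⟨_, v, rfl⟩ := hb
    simp only [Nat.mul_div_cancel_left _ hs] at hab
    rw [hab]
  have := Finset.card_le_card_of_injOn (fun n => n / s) h hinj
  rwa [Nat.card_Ico, Nat.add_sub_cancel_left] at this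

/-- a number larger than `z` has a divisor larger than `z` which is at most `z ^ 2` or a prime -/
lemma exists_div {s z : ℕ} (hz : 1 ≤ z) (hs : z < s) :
    ∃ d, d ∣ s ∧ z < d ∧ (d ≤ z * z ∨ d.Prime) := by
  classical
  have hex : ∃ d, d ∣ s ∧ z < d := ⟨s, dvd_rfl, hs⟩
  let d := Nat.find hex
  have hd : d ∣ s ∧ z < d := Nat.find_spec hex
  have hmin : ∀ m, m ∣ s → z < m → d ≤ m := fun m h1 h2 => Nat.find_min' hex ⟨h1, h2⟩
  refine ⟨d, hd.1, hd.2, ?_⟩
  have hd1 : d ≠ 1 := by omega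
  obtain ⟨p, hp, hpd⟩ := Nat.exists_prime_and_dvd hd1
  by_cases hpz : z < p
  · right
    have h1 := hmin p (hpd.trans hd.1) hpz
    have h2 := Nat.le_of_dvd (by omega) hpd
    have h3 : d = p := le_antisymm h1 h2
    rw [h3]
    exact hp
  · left
    push Not at hpz
    obtain ⟨e, he⟩ := hpd
    have he0 : e ≠ 0 := by
      rintro rfl
      rw [mul_zero] at he
      omega
    have h1 : e ≤ z := by
      by_contra hc
      push Not at hc
      have h2 := hmin e ((Dvd.intro_left p he.symm).trans hd.1) hc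
      have h3 : 2 * e ≤ p * e := Nat.mul_le_mul_right e hp.two_le
      omega
    rw [he]
    exact Nat.mul_le_mul hpz h1

end Pool.Agent.W571.MO
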