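import Mathlib
import Pool.Agent.W571.MO.Base

/-!
# Sums over the special primes (project MO)
-/

set_option autoImplicit false

open Finset
open Pool.Agent.W164.MO
open Pool.Agent.H932R4.CMO (bw)

namespace Pool.Agent.W571.MO

/-- the special primes are large -/
lemma special_big {c ν c₁ : ℝ} {k₀ k₁ : ℕ} {Od Sp : Set ℕ} {q : ℕ → ℕ} (hc : 0 < c)
    (hS : Sys c ν c₁ k₀ k₁ Od Sp q) {p : ℕ} (hp : p ∈ q '' Sp) : p.Prime ∧ 2 ^ (k₁ / 2) < p := by
  obtain ⟨N, hN, rfl⟩ := hp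
  refine ⟨(hS.sp_prime N hN).2.1, ?_⟩
  have h1 := hS.sp_low N hN
  have h2 := hS.sp_scale N hN
  have h3 : (2 : ℝ) ^ (k₁ / 2 : ℕ) < q N := by
    refine lt_of_le_of_lt ?_ h1
    rw [← Real.rpow_natCast]
    refine Real.rpow_le_rpow_of_exponent_le (by norm_num) ?_
    have h4 : ((k₁ / 2 : ℕ) : ℝ) ≤ (k₁ : ℝ) / 2 := by
      have := @Nat.cast_div_le ℝ _ _ _ k₁ 2
      exact_mod_cast this
    have h5 : (k₁ : ℝ) ≤ (Nat.log 2 N : ℝ) := by exact_mod_cast h2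
    have h6 : 0 ≤ c / 2 * (Nat.log 2 N : ℝ) := by positivity
    linarith
  exact_mod_cast h3

/-- the tail of the geometric series -/
lemma geom_tail {r : ℝ} (h0 : 0 ≤ r) (h1 : r < 1) (i₀ n : ℕ) :
    ∑ i ∈ Ico i₀ n, r ^ i ≤ r ^ i₀ / (1 - r) := by
  rcases Nat.le_total n i₀ with h | h
  · rw [Ico_eq_empty_of_le h, sum_empty]
    have : 0 < 1 - r := by linarith
    positivity
  · have h2 := geom_sum_Ico' (x := r) h1.ne h
    rw [h2]
    have h3 : 0 < 1 - r := by linarith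
    gcongr
    have : 0 ≤ r ^ n := by positivity
    linarith

/-- the sum of `p ^ (c / 8) / p` over the special primes -/
theorem sum_special {c ν c₁ : ℝ} {k₀ k₁ : ℕ} {Od Sp : Set ℕ} {q : ℕ → ℕ} (hc : 0 < c)
    (hc1 : c ≤ 1) (hS : Sys c ν c₁ k₀ k₁ Od Sp q) {e : ℝ} (he : e ≤ c / 8) (M : ℕ) :
    ∑ p ∈ (Icc 2 M).filter Nat.Prime, wS (q '' Sp) e p / p ≤
      ((2 : ℝ) ^ (-(c / 8))) ^ (k₁ / 2) / (1 - (2 : ℝ) ^ (-(c / 8))) := by
  classical
  set r : ℝ := (2 : ℝ) ^ (-(c / 8)) with hr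
  have hr0 : 0 ≤ r := by positivity
  have hr1 : r < 1 := Real.rpow_lt_one_of_one_lt_of_neg (by norm_num) (by linarith)
  refine le_trans ?_ (geom_tail hr0 hr1 (k₁ / 2) (M + 1))
  have h1 : ∑ p ∈ (Icc 2 M).filter Nat.Prime, wS (q '' Sp) e p / p =
      ∑ p ∈ ((Icc 2 M).filter Nat.Prime).filter (fun p => p ∈ q '' Sp), (p : ℝ) ^ e / p := by
    rw [Finset.sum_filter (fun p => p ∈ q '' Sp)]
    refine sum_congr rfl fun p _ => ?_
    unfold wS
    split_ifs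
    · rfl
    · rw [zero_div]
  rw [h1]
  set T := ((Icc 2 M).filter Nat.Prime).filter (fun p => p ∈ q '' Sp) with hT
  have hmaps : ∀ p ∈ T, Nat.log 2 p ∈ Ico (k₁ / 2) (M + 1) := by
    intro p hp
    rw [hT, mem_filter, mem_filter, mem_Icc] at hp
    obtain ⟨_, hb⟩ := special_big hc hS hp.2
    rw [mem_Ico]
    refine ⟨?_, ?_⟩
    · exact (Nat.le_log_iff_pow_le (by norm_num) (by omega)).2 hb.le
    · have := Nat.log_le_self 2 p
      omega
  rw [← Finset.sum_fiberwise_of_maps_to hmaps]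
  refine sum_le_sum fun i _ => ?_
  have h2 : ∀ p ∈ T.filter (fun p => Nat.log 2 p = i), (p : ℝ) ^ e / p ≤
      (2 : ℝ) ^ ((c / 8 - 1) * (i : ℝ)) := by
    intro p hp
    rw [mem_filter, hT, mem_filter, mem_filter, mem_Icc] at hp
    have hp2 : 2 ≤ p := hp.1.1.1.1
    have hp0 : (0 : ℝ) < p := by exact_mod_cast (by omega : 0 < p)
    have hi : 2 ^ i ≤ p := by
      rw [← hp.2]
      exact Nat.pow_log_le_self 2 (by omega)
    have hi' : (2 : ℝ) ^ (i : ℝ) ≤ p := by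
      rw [Real.rpow_natCast]
      exact_mod_cast hi
    have e1 : (p : ℝ) ^ e / p = (p : ℝ) ^ (e - 1) := by
      rw [Real.rpow_sub_one hp0.ne']
    have e2 : (2 : ℝ) ^ ((c / 8 - 1) * (i : ℝ)) = ((2 : ℝ) ^ (i : ℝ)) ^ (c / 8 - 1) := by
      rw [← Real.rpow_mul (by norm_num), mul_comm]
    rw [e1, e2]
    calc (p : ℝ) ^ (e - 1) ≤ (p : ℝ) ^ (c / 8 - 1) :=
          Real.rpow_le_rpow_of_exponent_le (by exact_mod_cast (by omega : 1 ≤ p)) (by linarith)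
      _ ≤ ((2 : ℝ) ^ (i : ℝ)) ^ (c / 8 - 1) :=
          Real.rpow_le_rpow_of_nonpos (by positivity) hi' (by linarith)
  have h3 := Finset.sum_le_card_nsmul _ _ _ h2
  refine h3.trans ?_
  rw [nsmul_eq_mul]
  have h4 : ((T.filter (fun p => Nat.log 2 p = i)).card : ℝ) ≤ (2 : ℝ) ^ ((1 - c / 4) * (i : ℝ)) := by
    refine le_trans ?_ (hS.sparse i)
    have h5 : T.filter (fun p => Nat.log 2 p = i) ⊆
        (Ico (2 ^ i) (2 ^ (i + 1))).filter (fun p => p ∈ q '' Sp) := by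
      intro p hp
      rw [mem_filter, hT, mem_filter, mem_filter, mem_Icc] at hp
      rw [mem_filter, mem_Ico]
      refine ⟨⟨?_, ?_⟩, hp.1.2⟩
      · rw [← hp.2]
        exact Nat.pow_log_le_self 2 (by omega)
      · rw [← hp.2]
        exact Nat.lt_pow_succ_log_self (by norm_num) p
    have h6 := card_le_card h5
    have h7 : (((Ico (2 ^ i) (2 ^ (i + 1))).filter (fun p => p ∈ q '' Sp)).card : ℝ) =
      (((Ico (2 ^ i) (2 ^ (i + 1))).filter (fun p => p ∈ q '' Sp)).card : ℝ) := rfl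
    calc ((T.filter (fun p => Nat.log 2 p = i)).card : ℝ)
        ≤ (((Ico (2 ^ i) (2 ^ (i + 1))).filter (fun p => p ∈ q '' Sp)).card : ℝ) := by
          exact_mod_cast h6
      _ ≤ _ := by
          apply le_of_eq
          congr!
  calc ((T.filter (fun p => Nat.log 2 p = i)).card : ℝ) * (2 : ℝ) ^ ((c / 8 - 1) * (i : ℝ))
      ≤ (2 : ℝ) ^ ((1 - c / 4) * (i : ℝ)) * (2 : ℝ) ^ ((c / 8 - 1) * (i : ℝ)) := by gcongr
    _ = (2 : ℝ) ^ (-(c / 8) * (i : ℝ)) := by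
        rw [← Real.rpow_add (by norm_num)]
        congr 1
        ring
    _ = r ^ i := by
        rw [Real.rpow_mul (by norm_num), Real.rpow_natCast]

/-- the sum of a completely multiplicative function supported by the special primes -/
theorem sum_smooth (hE : S_EU) {c ν c₁ : ℝ} {k₀ k₁ : ℕ} {Od Sp : Set ℕ} {q : ℕ → ℕ} (hc : 0 < c)
    (hc1 : c ≤ 1) (hS : Sys c ν c₁ k₀ k₁ Od Sp q) (hk : 4 ≤ k₁) {e : ℝ} (he : e ≤ c / 8)
    {τ : ℝ} (hτ : ((2 : ℝ) ^ (-(c / 8))) ^ (k₁ / 2) / (1 - (2 : ℝ) ^ (-(c / 8))) ≤ τ)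
    (hτ1 : τ ≤ 1 / 4) (M : ℕ) : ∑ m ∈ Icc 2 M, cm (wS (q '' Sp) e) m / m ≤ 4 * τ := by
  refine hE (wS (q '' Sp) e) M τ (wS_nonneg _ _) ?_ hτ1 ((sum_special hc hc1 hS he M).trans hτ)
  intro p hp
  unfold wS
  split_ifs with h
  · obtain ⟨_, hb⟩ := special_big hc hS h
    have h1 : 2 ^ 2 ≤ 2 ^ (k₁ / 2) := Nat.pow_le_pow_right (by norm_num) (by omega)
    have h2 : 4 ≤ p := by
      have := h1.trans hb.le
      omega
    have h3 : (4 : ℝ) ≤ p := by exact_mod_cast h2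
    have hp0 : (0 : ℝ) < p := by linarith
    have h4 : (p : ℝ) ^ e ≤ (p : ℝ) ^ (1 / 2 : ℝ) :=
      Real.rpow_le_rpow_of_exponent_le (by linarith) (by linarith)
    refine h4.trans ?_
    rw [← Real.sqrt_eq_rpow]
    have h5 : Real.sqrt p * Real.sqrt p = p := Real.mul_self_sqrt hp0.le
    have h6 : 2 ≤ Real.sqrt p := by
      rw [show (2 : ℝ) = Real.sqrt 4 by
        rw [show (4 : ℝ) = 2 ^ 2 by norm_num, Real.sqrt_sq (by norm_num)]]
      exact Real.sqrt_le_sqrt h3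
    nlinarith
  · positivity

end Pool.Agent.W571.MO
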