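import Mathlib
import Pool.Agent.W571.MO.Tail

/-!
# MO-MB: the mass with special primes, non-resonant
-/

set_option autoImplicit false

open Finset
open Pool.Agent.W164.MO
open Pool.Agent.H932R4.CMO (bw)

namespace Pool.Agent.W571.MO

lemma idx_range {k l j : ℕ} (hl : l ≤ k) (hj : j ∈ idx k l) :
    2 ^ k ≤ j * 2 ^ l ∧ j * 2 ^ l + 2 ^ l ≤ 2 ^ (k + 1) := by
  unfold idx at hj
  rw [mem_Ico] at hj
  have e1 : 2 ^ k = 2 ^ (k - l) * 2 ^ l := by rw [← pow_add]; congr 1; omega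
  have e2 : 2 ^ (k + 1) = 2 ^ (k - l + 1) * 2 ^ l := by rw [← pow_add]; congr 1; omega
  constructor
  · rw [e1]
    exact Nat.mul_le_mul_right _ hj.1
  · rw [e2]
    have h1 : (j + 1) * 2 ^ l ≤ 2 ^ (k - l + 1) * 2 ^ l := Nat.mul_le_mul_right _ hj.2
    linarith

/-- the mass of the cofactors of `s` -/
lemma inner {C : ℝ} {P₀ : ℕ} (hC : 0 < C) (hML : ∀ X Y : ℕ, P₀ ≤ X → (X : ℝ) ^ (1 / 4 : ℝ) ≤ Y →
    Y ≤ X → ∑ n ∈ Ioc X (X + Y), bw P₀ n ≤ C * Y / (Real.log X) ^ 3)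
    {k l j s : ℕ} (hk : 100 ≤ k) (hl2 : 3 * l ≤ 2 * k) (hl : 49 * k ≤ 100 * (l + 1))
    (hj : j ∈ idx k l) (hs1 : 1 ≤ s) (hs : s ≤ 2 ^ (2 * (k / 10))) (hP : P₀ ≤ 2 ^ (k / 2)) :
    ∑ t ∈ Ioc ((j * 2 ^ l - 1) / s) ((j * 2 ^ l - 1) / s + (2 ^ l / s + 1)), bw P₀ t ≤
      128 * C * 2 ^ l / (s * (k : ℝ) ^ 3) := by
  obtain ⟨hA1, hA2⟩ := idx_range (by omega : l ≤ k) hj
  set A := j * 2 ^ l with hA
  set X := (A - 1) / s with hX
  set Y := 2 ^ l / s + 1 with hY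
  have hs0 : 0 < s := hs1
  -- lower bound for X
  have hXlow : 2 ^ (k / 2 + 1) ≤ X := by
    rw [hX, Nat.le_div_iff_mul_le hs0]
    have h1 : 2 ^ (k / 2 + 1) * s ≤ 2 ^ (k / 2 + 1) * 2 ^ (2 * (k / 10)) :=
      Nat.mul_le_mul_left _ hs
    have h2 : 2 ^ (k / 2 + 1) * 2 ^ (2 * (k / 10)) ≤ 2 ^ (k - 1) := by
      rw [← pow_add]
      exact Nat.pow_le_pow_right (by norm_num) (by omega)
    have h3 : 2 ^ k = 2 * 2 ^ (k - 1) := by
      rw [← pow_succ']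
      congr 1
      omega
    have h4 : 1 ≤ 2 ^ (k - 1) := Nat.one_le_two_pow
    omega
  have hXup : X ≤ 2 ^ (k + 1) := by
    have h1 : X ≤ A - 1 := Nat.div_le_self _ _
    have h2 : 0 < 2 ^ l := by positivity
    omega
  -- lower bound for Y
  have hYlow : 2 ^ (l - 2 * (k / 10)) ≤ Y := by
    have h1 : 2 ^ l / 2 ^ (2 * (k / 10)) ≤ 2 ^ l / s := Nat.div_le_div_left hs hs0
    have h2 : 2 ^ l / 2 ^ (2 * (k / 10)) = 2 ^ (l - 2 * (k / 10)) :=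
      Nat.pow_div (by omega) (by norm_num)
    omega
  have hXY : (X : ℝ) ^ (1 / 4 : ℝ) ≤ Y := by
    have h1 : X ≤ Y ^ 4 := by
      refine hXup.trans ?_
      calc 2 ^ (k + 1) ≤ (2 ^ (l - 2 * (k / 10))) ^ 4 := by
            rw [← pow_mul]
            exact Nat.pow_le_pow_right (by norm_num) (by omega)
        _ ≤ Y ^ 4 := Nat.pow_le_pow_left hYlow 4
    have h2 : (X : ℝ) ≤ (Y : ℝ) ^ (4 : ℝ) := by
      have : (X : ℝ) ≤ (Y : ℝ) ^ 4 := by exact_mod_cast h1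
      rw [show (4 : ℝ) = ((4 : ℕ) : ℝ) by norm_num, Real.rpow_natCast]
      exact this
    calc (X : ℝ) ^ (1 / 4 : ℝ) ≤ ((Y : ℝ) ^ (4 : ℝ)) ^ (1 / 4 : ℝ) :=
          Real.rpow_le_rpow (by positivity) h2 (by norm_num)
      _ = Y := by
          rw [← Real.rpow_mul (by positivity)]
          norm_num
  have hYX : Y ≤ X := by
    rw [hX, Nat.le_div_iff_mul_le hs0, hY]
    have h1 : 2 ^ l / s * s ≤ 2 ^ l := Nat.div_mul_le_self _ _
    have h2 : (2 ^ l / s + 1) * s = 2 ^ l / s * s + s := by ring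
    have h3 : 2 ^ l ≤ 2 ^ (k - 2) := Nat.pow_le_pow_right (by norm_num) (by omega)
    have h4 : 2 ^ (2 * (k / 10)) ≤ 2 ^ (k - 2) := Nat.pow_le_pow_right (by norm_num) (by omega)
    have h5 : 2 ^ k = 4 * 2 ^ (k - 2) := by
      have : k = 2 + (k - 2) := by omega
      conv_lhs => rw [this, pow_add]
      norm_num
    have h6 : 1 ≤ 2 ^ (k - 2) := Nat.one_le_two_pow
    omega
  have hPX : P₀ ≤ X := by
    refine hP.trans (le_trans ?_ hXlow)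
    exact Nat.pow_le_pow_right (by norm_num) (by omega)
  refine (hML X Y hPX hXY hYX).trans ?_
  have hk0 : (0 : ℝ) < k := by exact_mod_cast (by omega : 0 < k)
  have hsr : (0 : ℝ) < s := by exact_mod_cast hs0
  have hlog : (k : ℝ) / 4 ≤ Real.log X := by
    have h1 : Real.log ((2 : ℝ) ^ (k / 2 + 1)) ≤ Real.log X :=
      Real.log_le_log (by positivity) (by exact_mod_cast hXlow)
    rw [Real.log_pow] at h1
    have h2 : (k : ℝ) / 2 ≤ ((k / 2 + 1 : ℕ) : ℝ) := by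
      have : k ≤ 2 * (k / 2 + 1) := by omega
      have h3 : (k : ℝ) ≤ ((2 * (k / 2 + 1) : ℕ) : ℝ) := by exact_mod_cast this
      push_cast at h3 ⊢
      linarith
    have h4 := Real.log_two_gt_d9
    nlinarith
  have hlog3 : ((k : ℝ) / 4) ^ 3 ≤ (Real.log X) ^ 3 := by gcongr
  have hYr : (Y : ℝ) ≤ 2 * 2 ^ l / s := by
    rw [le_div_iff₀ hsr]
    have h1 : Y * s ≤ 2 * 2 ^ l := by
      have h2 : 2 ^ l / s * s ≤ 2 ^ l := Nat.div_mul_le_self _ _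
      have h3 : 2 ^ (2 * (k / 10)) ≤ 2 ^ l := Nat.pow_le_pow_right (by norm_num) (by omega)
      have h4 : (2 ^ l / s + 1) * s = 2 ^ l / s * s + s := by ring
      rw [hY]
      omega
    exact_mod_cast h1
  calc C * Y / (Real.log X) ^ 3 ≤ C * (2 * 2 ^ l / s) / ((k : ℝ) / 4) ^ 3 := by gcongr
    _ = 128 * C * 2 ^ l / (s * (k : ℝ) ^ 3) := by
        field_simp
        norm_num

open Classical in
/-- the `n` with a small special part -/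
lemma bound1 {C : ℝ} {P₀ : ℕ} (hC : 0 < C) (hML : ∀ X Y : ℕ, P₀ ≤ X → (X : ℝ) ^ (1 / 4 : ℝ) ≤ Y →
    Y ≤ X → ∑ n ∈ Ioc X (X + Y), bw P₀ n ≤ C * Y / (Real.log X) ^ 3)
    {k l j : ℕ} (hk : 100 ≤ k) (hl2 : 3 * l ≤ 2 * k) (hl : 49 * k ≤ 100 * (l + 1))
    (hj : j ∈ idx k l) (hP : P₀ ≤ 2 ^ (k / 2)) (S : Set ℕ) (e : ℝ) {B : ℝ}
    (hB : ∑ m ∈ Icc 2 (2 ^ (2 * (k / 10))), cm (wS S e) m / m ≤ B) :
    ∑ n ∈ (blk l j).filter (fun n => 2 ≤ sp S n ∧ sp S n ≤ 2 ^ (2 * (k / 10))),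
      cm (wt P₀ e S) n ≤ 128 * C * 2 ^ l / (k : ℝ) ^ 3 * B := by
  obtain ⟨hA1, hA2⟩ := idx_range (by omega : l ≤ k) hj
  set F := (blk l j).filter (fun n => 2 ≤ sp S n ∧ sp S n ≤ 2 ^ (2 * (k / 10))) with hF
  have hn0 : ∀ n ∈ F, n ≠ 0 := by
    intro n hn h0
    rw [hF, mem_filter] at hn
    have := (blk_range (by omega : l ≤ k) hj hn.1).1
    have h2 : 1 ≤ 2 ^ k := Nat.one_le_two_pow
    omega
  let X : ℕ → ℕ := fun s => (j * 2 ^ l - 1) / s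
  let Y : ℕ → ℕ := fun s => 2 ^ l / s + 1
  let T : Finset (Σ _ : ℕ, ℕ) := (Icc 2 (2 ^ (2 * (k / 10)))).sigma fun s => Ioc (X s) (X s + Y s)
  let φ : ℕ → (Σ _ : ℕ, ℕ) := fun n => ⟨sp S n, rt S n⟩
  let g : (Σ _ : ℕ, ℕ) → ℝ := fun x => cm (wS S e) x.1 * bw P₀ x.2
  have h1 : ∑ n ∈ F, cm (wt P₀ e S) n = ∑ n ∈ F, g (φ n) := by
    refine sum_congr rfl fun n hn => ?_
    rw [cm_wt_eq S P₀ e (hn0 n hn)]
    show _ = cm (wS S e) (sp S n) * bw P₀ (rt S n)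
    rw [cm_wS e (sp_ne S (hn0 n hn)) (sp_fac S n)]
  have hinj : Set.InjOn φ F := by
    intro a ha b hb hab
    have e1 : sp S a = sp S b := congrArg Sigma.fst hab
    have e2 : rt S a = rt S b := by
      have := Sigma.mk.inj_iff.1 hab
      exact eq_of_heq this.2
    rw [← sp_mul_rt S (hn0 a ha), ← sp_mul_rt S (hn0 b hb), e1, e2]
  have h2 : ∑ n ∈ F, g (φ n) = ∑ x ∈ F.image φ, g x := (sum_image hinj).symm
  have h3 : F.image φ ⊆ T := by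
    intro x hx
    rw [mem_image] at hx
    obtain ⟨n, hn, rfl⟩ := hx
    have hn' := hn
    rw [hF, mem_filter] at hn
    unfold blk at hn
    rw [mem_Ico] at hn
    have hprod := sp_mul_rt S (hn0 n hn')
    have hs0 : 0 < sp S n := by omega
    show φ n ∈ (Icc 2 (2 ^ (2 * (k / 10)))).sigma fun s => Ioc (X s) (X s + Y s)
    rw [mem_sigma, mem_Icc, mem_Ioc]
    refine ⟨hn.2, ?_, ?_⟩
    · show (j * 2 ^ l - 1) / sp S n < rt S n
      rw [Nat.div_lt_iff_lt_mul hs0, mul_comm (rt S n), hprod]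
      have hnpos : 0 < n := Nat.pos_of_ne_zero (hn0 n hn')
      omega
    · show rt S n ≤ (j * 2 ^ l - 1) / sp S n + (2 ^ l / sp S n + 1)
      set s := sp S n with hs
      set A := j * 2 ^ l with hA
      have h4 : n < A + 2 ^ l := by
        have : (j + 1) * 2 ^ l = A + 2 ^ l := by rw [hA]; ring
        omega
      by_contra hc
      push Not at hc
      have h5 : s * ((A - 1) / s + (2 ^ l / s + 1) + 1) ≤ n := by
        rw [← hprod]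
        exact Nat.mul_le_mul_left s hc
      have h6 : s * ((A - 1) / s + (2 ^ l / s + 1) + 1) =
          (s * ((A - 1) / s) + s) + (s * (2 ^ l / s) + s) := by ring
      have h7 := Nat.div_add_mod (A - 1) s
      have h8 := Nat.mod_lt (A - 1) hs0
      have h9 := Nat.div_add_mod (2 ^ l) s
      have h10 := Nat.mod_lt (2 ^ l) hs0
      omega
  have h4 : ∑ x ∈ F.image φ, g x ≤ ∑ x ∈ T, g x :=
    sum_le_sum_of_subset_of_nonneg h3 fun x _ _ =>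
      mul_nonneg (cm_nonneg (wS_nonneg S e) _) (bw_nonneg _ _)
  rw [h1, h2]
  refine h4.trans ?_
  have h5 : ∑ x ∈ T, g x = ∑ s ∈ Icc 2 (2 ^ (2 * (k / 10))),
      cm (wS S e) s * ∑ t ∈ Ioc (X s) (X s + Y s), bw P₀ t := by
    rw [sum_sigma]
    refine sum_congr rfl fun s _ => ?_
    rw [mul_sum]
  rw [h5]
  have hk0 : (0 : ℝ) < k := by exact_mod_cast (by omega : 0 < k)
  calc ∑ s ∈ Icc 2 (2 ^ (2 * (k / 10))), cm (wS S e) s * ∑ t ∈ Ioc (X s) (X s + Y s), bw P₀ t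
      ≤ ∑ s ∈ Icc 2 (2 ^ (2 * (k / 10))),
        128 * C * 2 ^ l / (k : ℝ) ^ 3 * (cm (wS S e) s / s) := by
        refine sum_le_sum fun s hs => ?_
        rw [mem_Icc] at hs
        have h6 := inner hC hML hk hl2 hl hj (by omega : 1 ≤ s) hs.2 hP
        have hs0 : (0 : ℝ) < s := by exact_mod_cast (by omega : 0 < s)
        calc cm (wS S e) s * ∑ t ∈ Ioc (X s) (X s + Y s), bw P₀ t
            ≤ cm (wS S e) s * (128 * C * 2 ^ l / (s * (k : ℝ) ^ 3)) :=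
              mul_le_mul_of_nonneg_left h6 (cm_nonneg (wS_nonneg S e) _)
          _ = 128 * C * 2 ^ l / (k : ℝ) ^ 3 * (cm (wS S e) s / s) := by field_simp
    _ = 128 * C * 2 ^ l / (k : ℝ) ^ 3 *
        ∑ s ∈ Icc 2 (2 ^ (2 * (k / 10))), cm (wS S e) s / s := by rw [mul_sum]
    _ ≤ 128 * C * 2 ^ l / (k : ℝ) ^ 3 * B := by gcongr

open Classical in
/-- the `n` with a large special part composed of primes below the length of the block -/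
lemma bound3 {k l j a : ℕ} (hlk : l ≤ k) (hj : j ∈ idx k l) (hal : 2 * a ≤ l) (S : Set ℕ)
    {e : ℝ} (he : 0 ≤ e) {B : ℝ} (hB : ∑ m ∈ Icc 2 (2 ^ l), cm (wS S e) m / m ≤ B) :
    (((blk l j).filter (fun n => 2 ^ a < sp S n ∧ ∀ p ∈ S, p.Prime → p ∣ n → p < 2 ^ l)).card : ℝ)
      ≤ 2 * 2 ^ l * (2 : ℝ) ^ (-(e * (a : ℝ))) * B := by
  set F := (blk l j).filter (fun n => 2 ^ a < sp S n ∧ ∀ p ∈ S, p.Prime → p ∣ n → p < 2 ^ l) with hF
  set D := (Icc 2 (2 ^ l)).filter (fun d => 2 ^ a < d ∧ ∀ p : ℕ, p.Prime → p ∣ d → p ∈ S) with hD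
  have hsub : F ⊆ D.biUnion (fun d => (blk l j).filter (fun n => d ∣ n)) := by
    intro n hn
    rw [hF, mem_filter] at hn
    obtain ⟨hnb, hsp, hps⟩ := hn
    have hn0 : n ≠ 0 := by
      have := (blk_range hlk hj hnb).1
      have h2 : 1 ≤ 2 ^ k := Nat.one_le_two_pow
      omega
    obtain ⟨d, hd1, hd2, hd3⟩ := exists_div (z := 2 ^ a) Nat.one_le_two_pow hsp
    have hfac : ∀ p : ℕ, p.Prime → p ∣ d → p ∈ S := fun p hp hpd =>
      sp_fac S n p hp (hpd.trans hd1)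
    have hdn : d ∣ n := hd1.trans (sp_dvd S hn0)
    have hdl : d ≤ 2 ^ l := by
      rcases hd3 with h | h
      · refine h.trans ?_
        rw [← pow_add]
        exact Nat.pow_le_pow_right (by norm_num) (by omega)
      · exact (hps d (hfac d h dvd_rfl) h hdn).le
    rw [mem_biUnion]
    refine ⟨d, ?_, ?_⟩
    · rw [hD, mem_filter, mem_Icc]
      have : 1 ≤ 2 ^ a := Nat.one_le_two_pow
      exact ⟨⟨by omega, hdl⟩, hd2, hfac⟩
    · rw [mem_filter]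
      exact ⟨hnb, hdn⟩
  have h1 : F.card ≤ ∑ d ∈ D, ((blk l j).filter (fun n => d ∣ n)).card :=
    (card_le_card hsub).trans card_biUnion_le
  have h2 : ∀ d ∈ D, (((blk l j).filter (fun n => d ∣ n)).card : ℝ) ≤
      2 * 2 ^ l * (2 : ℝ) ^ (-(e * (a : ℝ))) * (cm (wS S e) d / d) := by
    intro d hd
    rw [hD, mem_filter, mem_Icc] at hd
    obtain ⟨⟨hd2, hdl⟩, hda, hfac⟩ := hd
    have hd0 : (0 : ℝ) < d := by exact_mod_cast (by omega : 0 < d)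
    have h3 : ((blk l j).filter (fun n => d ∣ n)).card ≤ 2 ^ l / d + 1 := by
      have h4 := card_mult (j * 2 ^ l) (2 ^ l) d (by omega)
      have h5 : blk l j = Ico (j * 2 ^ l) (j * 2 ^ l + 2 ^ l) := by
        unfold blk
        congr 1
        ring
      rw [h5]
      exact h4
    have h4 : (((blk l j).filter (fun n => d ∣ n)).card : ℝ) ≤ 2 * 2 ^ l / d := by
      rw [le_div_iff₀ hd0]
      have h5 : (2 ^ l / d + 1) * d ≤ 2 * 2 ^ l := by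
        have := Nat.div_mul_le_self (2 ^ l) d
        have h6 : (2 ^ l / d + 1) * d = 2 ^ l / d * d + d := by ring
        omega
      have h6 : ((blk l j).filter (fun n => d ∣ n)).card * d ≤ 2 * 2 ^ l :=
        (Nat.mul_le_mul_right d h3).trans h5
      exact_mod_cast h6
    refine h4.trans ?_
    rw [cm_wS e (by omega) hfac]
    have h5 : (1 : ℝ) ≤ (2 : ℝ) ^ (-(e * (a : ℝ))) * (d : ℝ) ^ e := by
      have h6 : ((2 : ℝ) ^ (a : ℝ)) ^ e ≤ (d : ℝ) ^ e := by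
        refine Real.rpow_le_rpow (by positivity) ?_ he
        rw [Real.rpow_natCast]
        exact_mod_cast hda.le
      rw [← Real.rpow_mul (by norm_num), mul_comm (a : ℝ) e] at h6
      rw [Real.rpow_neg (by norm_num), ← div_eq_inv_mul, le_div_iff₀ (by positivity), one_mul]
      exact h6
    calc (2 : ℝ) * 2 ^ l / d = 2 * 2 ^ l / d * 1 := by ring
      _ ≤ 2 * 2 ^ l / d * ((2 : ℝ) ^ (-(e * (a : ℝ))) * (d : ℝ) ^ e) := by gcongr
      _ = 2 * 2 ^ l * (2 : ℝ) ^ (-(e * (a : ℝ))) * ((d : ℝ) ^ e / d) := by ring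
  calc (F.card : ℝ) ≤ ∑ d ∈ D, (((blk l j).filter (fun n => d ∣ n)).card : ℝ) := by
        exact_mod_cast h1
    _ ≤ ∑ d ∈ D, 2 * 2 ^ l * (2 : ℝ) ^ (-(e * (a : ℝ))) * (cm (wS S e) d / d) := sum_le_sum h2
    _ = 2 * 2 ^ l * (2 : ℝ) ^ (-(e * (a : ℝ))) * ∑ d ∈ D, cm (wS S e) d / d := by rw [mul_sum]
    _ ≤ 2 * 2 ^ l * (2 : ℝ) ^ (-(e * (a : ℝ))) * B := by
        refine mul_le_mul_of_nonneg_left (le_trans ?_ hB) (by positivity)
        refine sum_le_sum_of_subset_of_nonneg (filter_subset _ _) fun m _ _ => ?_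
        exact div_nonneg (cm_nonneg (wS_nonneg S e) _) (by positivity)

/-- the numerical estimate -/
lemma numeric {c ν : ℝ} (hc : 0 < c) (hc1 : c ≤ 1 / 10) (hν : 0 < ν) (hνc : ν ≤ c / 2) {k a : ℕ}
    (ha : k ≤ 10 * a + 9) :
    (2 : ℝ) ^ (ν / 1000 * ((k : ℝ) + 1)) * (2 : ℝ) ^ (-(ν / 64 * (k : ℝ))) +
      (2 : ℝ) ^ (ν / 1000 * ((k : ℝ) + 1)) * (2 * (2 : ℝ) ^ (-(c / 8 * (a : ℝ)))) ≤
      10 * ((2 : ℝ) ^ (-(ν / 128))) ^ k := by
  have hk0 : (0 : ℝ) ≤ k := Nat.cast_nonneg k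
  have ha' : (k : ℝ) ≤ 10 * a + 9 := by exact_mod_cast ha
  have e0 : ((2 : ℝ) ^ (-(ν / 128))) ^ k = (2 : ℝ) ^ (-(ν / 128) * (k : ℝ)) := by
    rw [Real.rpow_mul (by norm_num), Real.rpow_natCast]
  have h1 : (2 : ℝ) ^ (ν / 1000 * ((k : ℝ) + 1)) * (2 : ℝ) ^ (-(ν / 64 * (k : ℝ))) ≤
      2 * (2 : ℝ) ^ (-(ν / 128) * (k : ℝ)) := by
    rw [← Real.rpow_add (by norm_num)]
    nth_rewrite 2 [← Real.rpow_one 2]
    rw [← Real.rpow_add (by norm_num)]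
    refine Real.rpow_le_rpow_of_exponent_le (by norm_num) ?_
    have : 0 ≤ ν * k := by positivity
    nlinarith
  have h2 : (2 : ℝ) ^ (ν / 1000 * ((k : ℝ) + 1)) * (2 * (2 : ℝ) ^ (-(c / 8 * (a : ℝ)))) ≤
      8 * (2 : ℝ) ^ (-(ν / 128) * (k : ℝ)) := by
    have e1 : (2 : ℝ) ^ (ν / 1000 * ((k : ℝ) + 1)) * (2 * (2 : ℝ) ^ (-(c / 8 * (a : ℝ)))) =
        2 * (2 : ℝ) ^ (ν / 1000 * ((k : ℝ) + 1) + -(c / 8 * (a : ℝ))) := by
      rw [Real.rpow_add (by norm_num)]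
      ring
    have e2 : 8 * (2 : ℝ) ^ (-(ν / 128) * (k : ℝ)) =
        2 * (2 : ℝ) ^ (2 + -(ν / 128) * (k : ℝ)) := by
      rw [Real.rpow_add (by norm_num)]
      norm_num
      ring
    rw [e1, e2]
    refine mul_le_mul_of_nonneg_left ?_ (by norm_num)
    refine Real.rpow_le_rpow_of_exponent_le (by norm_num) ?_
    have h3 : c * k ≤ c * (10 * a + 9) := mul_le_mul_of_nonneg_left ha' hc.le
    have h4 : ν * k ≤ c / 2 * k := mul_le_mul_of_nonneg_right hνc hk0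
    nlinarith
  rw [e0]
  linarith

/-- **MO-MB** -/
theorem mb : S_ML → S_EU → S_MB := by
  classical
  rintro ⟨C, hC, hML⟩ hE c ν c₁ κ hc hc1 hν hνc hc₁ hκ
  obtain ⟨P₁, hP₁, hML⟩ := hML 1 one_pos
  set τ : ℝ := min (1 / 4) (κ / (1024 * C)) with hτ
  have hτ0 : 0 < τ := lt_min (by norm_num) (by positivity)
  have hτ4 : τ ≤ 1 / 4 := min_le_left _ _
  have hτC : 512 * C * τ ≤ κ / 2 := by
    have h1 : τ ≤ κ / (1024 * C) := min_le_right _ _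
    rw [le_div_iff₀ (by positivity)] at h1
    linarith
  set r : ℝ := (2 : ℝ) ^ (-(c / 8)) with hr
  have hr0 : 0 ≤ r := by positivity
  have hr1 : r < 1 := Real.rpow_lt_one_of_one_lt_of_neg (by norm_num) (by linarith)
  obtain ⟨K₁, hK₁⟩ : ∃ K₁ : ℕ, ∀ m ≥ K₁, r ^ m / (1 - r) ≤ τ := by
    have h1 : Filter.Tendsto (fun m : ℕ => r ^ m / (1 - r)) Filter.atTop (nhds (0 / (1 - r))) :=
      (tendsto_pow_atTop_nhds_zero_of_lt_one hr0 hr1).div_const _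
    rw [zero_div] at h1
    have h2 := h1.eventually_le_const hτ0
    exact Filter.eventually_atTop.1 h2
  set r' : ℝ := (2 : ℝ) ^ (-(ν / 128)) with hr'
  have hr'0 : 0 ≤ r' := by positivity
  have hr'1 : r' < 1 := Real.rpow_lt_one_of_one_lt_of_neg (by norm_num) (by linarith)
  obtain ⟨K₂, hK₂⟩ : ∃ K₂ : ℕ, ∀ m ≥ K₂, (m : ℝ) ^ 3 * r' ^ m ≤ κ / 20 := by
    have h1 := tendsto_pow_const_mul_const_pow_of_lt_one 3 hr'0 hr'1
    have h2 := h1.eventually_le_const (show (0 : ℝ) < κ / 20 by positivity)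
    exact Filter.eventually_atTop.1 h2
  refine ⟨max 100 (max P₁ (max K₁ K₂)), ?_⟩
  intro k₀ k₁ Od Sp q hK hS k j hk hj
  have hk100 : 100 ≤ k₀ := (le_max_left _ _).trans hK
  have hkP : P₁ ≤ k₀ := ((le_max_left _ _).trans (le_max_right _ _)).trans hK
  have hkK1 : K₁ ≤ k₀ :=
    (((le_max_left _ _).trans (le_max_right _ _)).trans (le_max_right _ _)).trans hK
  have hkK2 : K₂ ≤ k₀ :=
    (((le_max_right _ _).trans (le_max_right _ _)).trans (le_max_right _ _)).trans hK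
  set l := ll ν k₁ k with hl
  have hl2 : 3 * l ≤ 2 * k := ll_le hν k₁ k
  have hl49 : 49 * k ≤ 100 * (l + 1) := ll_ge hν (by linarith) k₁ k
  have hlk : l ≤ k := by omega
  have hk0 : (0 : ℝ) < k := by exact_mod_cast (by omega : 0 < k)
  set S : Set ℕ := q '' Sp with hSdef
  set F := (blk l j).filter (fun n => (∃ N ∈ Sp, q N ∣ n) ∧ ¬ Res ν Sp k n) with hF
  show ∑ n ∈ F, sw ν k₀ Sp q n ≤ κ * 2 ^ l / (k : ℝ) ^ 3
  rcases F.eq_empty_or_nonempty with hFe | ⟨n₀, hn₀⟩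
  · rw [hFe, sum_empty]
    positivity
  -- `k₁` is at most about `2 k`
  have hk1k : k₁ ≤ 2 * k + 1 := by
    rw [hF, mem_filter] at hn₀
    obtain ⟨hb, ⟨N, hN, hd⟩, _⟩ := hn₀
    obtain ⟨_, h1⟩ := special_big hc hS (Set.mem_image_of_mem q hN)
    obtain ⟨h2, h3⟩ := blk_range hlk hj hb
    have h4 : 0 < 2 ^ k := by positivity
    have h5 := Nat.le_of_dvd (by omega) hd
    have h6 : 2 ^ (k₁ / 2) < 2 ^ (k + 1) := by omega
    have h7 := (Nat.pow_lt_pow_iff_right (by norm_num : 1 < 2)).1 h6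
    omega
  have hk01 : 20 * k₀ ≤ k₁ := by
    have h1 := hS.k01
    have h2 : ν * k₁ ≤ 1 / 20 * k₁ := by
      refine mul_le_mul_of_nonneg_right ?_ (Nat.cast_nonneg _)
      linarith
    have h3 : ((20 * k₀ : ℕ) : ℝ) ≤ (k₁ : ℝ) := by
      push_cast
      linarith
    exact_mod_cast h3
  have hP0 : 2 ^ k₀ ≤ 2 ^ (k / 2) := Nat.pow_le_pow_right (by norm_num) (by omega)
  have hP1 : P₁ ≤ 2 ^ k₀ := hkP.trans Nat.lt_two_pow_self.le
  have hP3 : 3 ≤ 2 ^ k₀ := hP₁.trans hP1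
  have hML' : ∀ X Y : ℕ, 2 ^ k₀ ≤ X → (X : ℝ) ^ (1 / 4 : ℝ) ≤ Y → Y ≤ X →
      ∑ n ∈ Ioc X (X + Y), bw (2 ^ k₀) n ≤ C * Y / (Real.log X) ^ 3 := fun X Y h1 h2 h3 =>
    (hML (2 ^ k₀) hP1 X Y h1 h2 h3).2
  have hτk : r ^ (k₁ / 2) / (1 - r) ≤ τ := hK₁ _ (by omega)
  have he0 : 0 ≤ ν / 1000 := by positivity
  have hec : ν / 1000 ≤ c / 8 := by linarith
  have hsm : ∀ (e : ℝ), e ≤ c / 8 → ∀ M : ℕ, ∑ m ∈ Icc 2 M, cm (wS S e) m / m ≤ 4 * τ :=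
    fun e he M => sum_smooth hE hc (by linarith) hS (by omega) he hτk hτ4 M
  have hsw : ∀ n, sw ν k₀ Sp q n = cm (wt (2 ^ k₀) (ν / 1000) S) n := fun n => rfl
  have hsw0 : ∀ n, 0 ≤ sw ν k₀ Sp q n := fun n => cm_nonneg (wt_nonneg _ _ _) n
  have hnz : ∀ n ∈ blk l j, n ≠ 0 := by
    intro n hn h0
    have h1 := (blk_range hlk hj hn).1
    have h2 : 0 < 2 ^ k := by positivity
    omega
  have hswle : ∀ n ∈ blk l j, sw ν k₀ Sp q n ≤ (2 : ℝ) ^ (ν / 1000 * ((k : ℝ) + 1)) := by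
    intro n hn
    rw [hsw]
    refine (cm_wt_le S hP3 he0 (hnz n hn)).trans ?_
    have h1 := (blk_range hlk hj hn).2
    have h2 : (n : ℝ) ≤ (2 : ℝ) ^ ((k : ℝ) + 1) := by
      have : (n : ℝ) ≤ (2 : ℝ) ^ (k + 1) := by exact_mod_cast h1.le
      rw [← Real.rpow_natCast] at this
      push_cast at this
      exact this
    calc (n : ℝ) ^ (ν / 1000) ≤ ((2 : ℝ) ^ ((k : ℝ) + 1)) ^ (ν / 1000) :=
          Real.rpow_le_rpow (by positivity) h2 he0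
      _ = (2 : ℝ) ^ (ν / 1000 * ((k : ℝ) + 1)) := by
          rw [← Real.rpow_mul (by norm_num), mul_comm]
  set W : ℝ := (2 : ℝ) ^ (ν / 1000 * ((k : ℝ) + 1)) with hW
  have hW0 : 0 < W := by positivity
  -- the three parts
  set F1 := (blk l j).filter (fun n => 2 ≤ sp S n ∧ sp S n ≤ 2 ^ (2 * (k / 10))) with hF1
  set F2 := (blk l j).filter (fun n => (∃ N ∈ Sp, q N ∣ n ∧ 2 ^ ll ν k₁ k ≤ q N) ∧
      ¬ Res ν Sp k n) with hF2
  set F3 := (blk l j).filter (fun n => 2 ^ (k / 10) < sp S n ∧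
    ∀ p ∈ S, p.Prime → p ∣ n → p < 2 ^ l) with hF3
  have hcover : ∀ n ∈ F, n ∈ F1 ∨ n ∈ F2 ∨ n ∈ F3 := by
    intro n hn
    rw [hF, mem_filter] at hn
    obtain ⟨hb, ⟨N, hN, hd⟩, hres⟩ := hn
    have hn0 := hnz n hb
    have hqS : q N ∈ S := Set.mem_image_of_mem q hN
    obtain ⟨hqp, _⟩ := special_big hc hS hqS
    have h1 : q N ∣ sp S n := dvd_sp hn0 hqp hd hqS
    have h2 : 2 ≤ sp S n := hqp.two_le.trans (Nat.le_of_dvd (Nat.pos_of_ne_zero (sp_ne S hn0)) h1)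
    by_cases h3 : sp S n ≤ 2 ^ (2 * (k / 10))
    · left
      rw [hF1, mem_filter]
      exact ⟨hb, h2, h3⟩
    · right
      by_cases h4 : ∃ N ∈ Sp, q N ∣ n ∧ 2 ^ ll ν k₁ k ≤ q N
      · left
        rw [hF2, mem_filter]
        exact ⟨hb, h4, hres⟩
      · right
        rw [hF3, mem_filter]
        refine ⟨hb, ?_, ?_⟩
        · have h5 : 2 ^ (k / 10) ≤ 2 ^ (2 * (k / 10)) :=
            Nat.pow_le_pow_right (by norm_num) (by omega)
          omega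
        · rintro p ⟨N', hN', rfl⟩ _ hpn
          by_contra hc'
          push Not at hc'
          exact h4 ⟨N', hN', hpn, hc'⟩
  have hsum : ∑ n ∈ F, sw ν k₀ Sp q n ≤ ∑ n ∈ F1, sw ν k₀ Sp q n + ∑ n ∈ F2, sw ν k₀ Sp q n +
      ∑ n ∈ F3, sw ν k₀ Sp q n := by
    have hsub : F ⊆ (F1 ∪ F2) ∪ F3 := by
      intro n hn
      rw [mem_union, mem_union]
      rcases hcover n hn with h | h | h
      · exact Or.inl (Or.inl h)
      · exact Or.inl (Or.inr h)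
      · exact Or.inr h
    have hun : ∀ A B : Finset ℕ, ∑ n ∈ A ∪ B, sw ν k₀ Sp q n ≤
        ∑ n ∈ A, sw ν k₀ Sp q n + ∑ n ∈ B, sw ν k₀ Sp q n := by
      intro A B
      rw [← sum_union_inter]
      have : 0 ≤ ∑ n ∈ A ∩ B, sw ν k₀ Sp q n := sum_nonneg fun n _ => hsw0 n
      linarith
    calc ∑ n ∈ F, sw ν k₀ Sp q n ≤ ∑ n ∈ (F1 ∪ F2) ∪ F3, sw ν k₀ Sp q n :=
          sum_le_sum_of_subset_of_nonneg hsub fun n _ _ => hsw0 n
      _ ≤ _ := by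
          have h1 := hun (F1 ∪ F2) F3
          have h2 := hun F1 F2
          linarith
  have hb1 : ∑ n ∈ F1, sw ν k₀ Sp q n ≤ κ / 2 * 2 ^ l / (k : ℝ) ^ 3 := by
    have h1 := bound1 hC hML' (by omega : 100 ≤ k) hl2 hl49 hj hP0 S (ν / 1000)
      (hsm (ν / 1000) hec _)
    have h2 : ∑ n ∈ F1, sw ν k₀ Sp q n ≤ 128 * C * 2 ^ l / (k : ℝ) ^ 3 * (4 * τ) := h1
    refine h2.trans ?_
    have h3 : 128 * C * 2 ^ l / (k : ℝ) ^ 3 * (4 * τ) = (512 * C * τ) * 2 ^ l / (k : ℝ) ^ 3 := by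
      ring
    rw [h3]
    gcongr
  have hcard : ∀ G : Finset ℕ, G ⊆ blk l j → ∑ n ∈ G, sw ν k₀ Sp q n ≤ W * G.card := by
    intro G hG
    have h1 := Finset.sum_le_card_nsmul G (fun n => sw ν k₀ Sp q n) W fun n hn => hswle n (hG hn)
    rw [nsmul_eq_mul] at h1
    linarith
  have hb2 : ∑ n ∈ F2, sw ν k₀ Sp q n ≤ W * (2 ^ l * (2 : ℝ) ^ (-(ν / 64 * (k : ℝ)))) := by
    refine (hcard F2 (filter_subset _ _)).trans (mul_le_mul_of_nonneg_left ?_ hW0.le)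
    exact hS.cl k j hk hj
  have hb3 : ∑ n ∈ F3, sw ν k₀ Sp q n ≤
      W * (2 * 2 ^ l * (2 : ℝ) ^ (-(c / 8 * ((k / 10 : ℕ) : ℝ)))) := by
    refine (hcard F3 (filter_subset _ _)).trans (mul_le_mul_of_nonneg_left ?_ hW0.le)
    have h1 := bound3 hlk hj (by omega : 2 * (k / 10) ≤ l) S (by positivity : 0 ≤ c / 8)
      (hsm (c / 8) le_rfl (2 ^ l))
    refine h1.trans ?_
    have h2 : 0 ≤ 2 * 2 ^ l * (2 : ℝ) ^ (-(c / 8 * ((k / 10 : ℕ) : ℝ))) := by positivity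
    nlinarith
  have hnum := numeric hc hc1 hν hνc (k := k) (a := k / 10) (by omega)
  have hfin : W * (2 ^ l * (2 : ℝ) ^ (-(ν / 64 * (k : ℝ)))) +
      W * (2 * 2 ^ l * (2 : ℝ) ^ (-(c / 8 * ((k / 10 : ℕ) : ℝ)))) ≤
      κ / 2 * 2 ^ l / (k : ℝ) ^ 3 := by
    have h1 := hK₂ k (by omega)
    have h2 : W * (2 ^ l * (2 : ℝ) ^ (-(ν / 64 * (k : ℝ)))) +
      W * (2 * 2 ^ l * (2 : ℝ) ^ (-(c / 8 * ((k / 10 : ℕ) : ℝ)))) =
      2 ^ l * (W * (2 : ℝ) ^ (-(ν / 64 * (k : ℝ))) +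
        W * (2 * (2 : ℝ) ^ (-(c / 8 * ((k / 10 : ℕ) : ℝ))))) := by ring
    rw [h2, le_div_iff₀ (by positivity)]
    calc 2 ^ l * (W * (2 : ℝ) ^ (-(ν / 64 * (k : ℝ))) +
        W * (2 * (2 : ℝ) ^ (-(c / 8 * ((k / 10 : ℕ) : ℝ))))) * (k : ℝ) ^ 3
        ≤ 2 ^ l * (10 * r' ^ k) * (k : ℝ) ^ 3 := by gcongr
      _ = 10 * 2 ^ l * ((k : ℝ) ^ 3 * r' ^ k) := by ring
      _ ≤ 10 * 2 ^ l * (κ / 20) := by gcongr
      _ = κ / 2 * 2 ^ l := by ring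
  calc ∑ n ∈ F, sw ν k₀ Sp q n ≤ _ := hsum
    _ ≤ κ / 2 * 2 ^ l / (k : ℝ) ^ 3 + κ / 2 * 2 ^ l / (k : ℝ) ^ 3 := by linarith
    _ = κ * 2 ^ l / (k : ℝ) ^ 3 := by ring

end Pool.Agent.W571.MO
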